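import Pool.Agent.MWFE.StmtsA

/-!
# Squad MWFE, row LQR: `Lq` is a congruence
-/

set_option autoImplicit false

namespace Pool.Agent.MWFE.H88

open Pool.Agent.Helper14_MV Pool.Agent.Helper2_MV Pool.Agent.MVD
open Pool.Agent.MWFE

theorem fil_cw (h : FilStmt) {n : ℕ} {β : FIC} (hz : Hz n β) {i j i' j' : ℕ}
    (hi : i ≡ i' [MOD n]) (hj : j ≡ j' [MOD n]) (h1 : 1 ≤ i) (h2 : 1 ≤ j) (h3 : 1 ≤ i')
    (h4 : 1 ≤ j') : RR β (cw i j) (cw i' j') :=
  h n β hz [] [2, 3] 0 3 i j i' j' (by decide) hi hj h1 h2 h3 h4 (by decide)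

theorem lq_shift (h : FilStmt) {n : ℕ} {β : FIC} (hz : Hz n β) {i j : ℕ} (c : ℕ)
    (hl : Lq n β i j) : Lq n β (i + c) (j + c) := by
  intro i' j' k l hi hj hs h1 h2 h3 h4
  have hn := hz.n2
  have hA : i + n ≡ i [MOD n] := by simp [Nat.ModEq]
  have hB : j + n ≡ j [MOD n] := by simp [Nat.ModEq]
  have e1 : c + (i + k) ≡ c + (j + l) [MOD n] := by
    have a1 : i + c + k ≡ j + c + l [MOD n] :=
      ((hi.symm.add_right k).trans hs).trans (hj.add_right l)
    have b1 : i + c + k = c + (i + k) := by omega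
    have b2 : j + c + l = c + (j + l) := by omega
    rw [b1, b2] at a1
    exact a1
  have e2 : i + k ≡ j + l [MOD n] := Nat.ModEq.add_left_cancel' c e1
  have e3 : i + n + k ≡ j + n + l [MOD n] :=
    ((hA.add_right k).trans e2).trans (hB.add_right l).symm
  have r1 := hl (i + n) (j + n) k l hA hB e3 (by omega) (by omega) h3 h4
  have r2 : RR β (cw (c + (i + n)) k) (cw (c + (j + n)) l) := by
    have := RR.append (RR.refl (β := β) (List.replicate c 0)) r1
    have e : ∀ a b : ℕ, List.replicate c 0 ++ cw a b = cw (c + a) b := by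
      intro a b
      unfold cw
      rw [List.replicate_add, List.append_assoc]
    rw [e, e] at this
    exact this
  have c1 : i' ≡ c + (i + n) [MOD n] := by
    have b1 : c + (i + n) = (i + c) + n := by omega
    rw [b1]
    exact hi.trans (by simp [Nat.ModEq])
  have c2 : c + (j + n) ≡ j' [MOD n] := by
    have b1 : c + (j + n) = (j + c) + n := by omega
    rw [b1]
    exact Nat.ModEq.trans (by simp [Nat.ModEq]) hj.symm
  have f1 := fil_cw h hz c1 (Nat.ModEq.refl k) h1 h3 (by omega) h3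
  have f2 := fil_cw h hz c2 (Nat.ModEq.refl l) (by omega) h4 h2 h4
  exact β.trans (β.trans f1 r2) f2

theorem lqr (h : FilStmt) : LqrStmt := by
  intro n β hz
  have hn := hz.n2
  have p4 : ∀ i j i' j', i ≡ i' [MOD n] → j ≡ j' [MOD n] → Lq n β i j → Lq n β i' j' := by
    intro i j i' j' hi hj hl a b k l ha hb hs h1 h2 h3 h4
    exact hl a b k l (ha.trans hi.symm) (hb.trans hj.symm) hs h1 h2 h3 h4
  refine ⟨?_, ?_, ?_, p4, ?_⟩
  · intro i a b k l ha hb hs h1 h2 h3 h4
    have e1 : a ≡ b [MOD n] := ha.trans hb.symm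
    have e2 : k ≡ l [MOD n] := Nat.ModEq.add_left_cancel e1 hs
    exact fil_cw h hz e1 e2 h1 h3 h2 h4
  · intro i j hl a b k l ha hb hs h1 h2 h3 h4
    exact RR.symm (hl b a l k hb ha hs.symm h2 h1 h4 h3)
  · intro i j k h12 h23 a b s t ha hb hs h1 h2 h3 h4
    have hJ : j + n ≡ j [MOD n] := by simp [Nat.ModEq]
    obtain ⟨m, rfl⟩ : ∃ m, n = m + 1 := ⟨n - 1, by omega⟩
    have e1 : a + s ≡ (j + (m + 1)) + (a + s + m * (j + (m + 1))) [MOD (m + 1)] := by
      have b1 : (j + (m + 1)) + (a + s + m * (j + (m + 1))) = a + s + (m + 1) * (j + (m + 1)) := by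
        ring
      rw [b1]
      simp [Nat.ModEq]
    have r1 := h12 a (j + (m + 1)) s (a + s + m * (j + (m + 1))) ha hJ e1 h1 (by omega) h3
      (by omega)
    have r2 := h23 (j + (m + 1)) b (a + s + m * (j + (m + 1))) t hJ hb (e1.symm.trans hs)
      (by omega) h2 (by omega) h4
    exact β.trans r1 r2
  · intro i j c
    constructor
    · exact lq_shift h hz c
    · intro hl
      have h5 := lq_shift h hz ((n - 1) * c) hl
      obtain ⟨m, rfl⟩ : ∃ m, n = m + 1 := ⟨n - 1, by omega⟩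
      refine p4 _ _ _ _ ?_ ?_ h5
      · have b1 : i + c + (m + 1 - 1) * c = i + (m + 1) * c := by
          rw [Nat.add_sub_cancel]; ring
        rw [b1]
        simp [Nat.ModEq]
      · have b1 : j + c + (m + 1 - 1) * c = j + (m + 1) * c := by
          rw [Nat.add_sub_cancel]; ring
        rw [b1]
        simp [Nat.ModEq]

end Pool.Agent.MWFE.H88
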